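import Mathlib
import Pool.Agent.Y532.SC.Wrap

/-!
# `𝒜^#_d` for every real `d ≥ 2`: almost all coefficients can be prescribed arbitrarily

The definitions are those of the problem (the same as in the file `EveryDegreeOccurs`, which shows
`𝒜^#_d ≠ ∅` for `d ≥ 2`).  Here: for every real `d ≥ 2`, every `K` and `ε > 0`, all sufficiently large
conductors `Q` and all sufficiently large gamma shifts `ν = m + 1 - d / 4` there is a set `S` of at most
`ε x^{2/d}` integers up to `x` (for every `x`) such that EVERY complex sequence `v(n) = O(n^K)` and every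
root number `ω` are completed on `S` to the coefficients of an entire function `F` with the functional
equation given by `(Q, Γ(d s / 2 + ν), ω)`.  In particular every finite sequence is the sequence of the
first coefficients of an entire member of `𝒜^#_d` (`first_coefficients`).
-/

set_option autoImplicit false

open Complex Filter

namespace Pool.Agent.Results.MP_bac04d_nt.PrescribedCoefficients

/-- `G(s) = ∏ Γ(λ_j s + μ_j) ∏ Γ(λ'_j s + μ'_j)^{-1}`. -/
noncomputable def gammaFactor {r r' : ℕ} (lam : Fin r → ℝ) (mu : Fin r → ℂ) (lam' : Fin r' → ℝ)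
    (mu' : Fin r' → ℂ) (s : ℂ) : ℂ :=
  (∏ j, Gamma ((lam j : ℂ) * s + mu j)) * ∏ j, (Gamma ((lam' j : ℂ) * s + mu' j))⁻¹

/-- (P1) for the coefficient sequence `a`: `F` is the sum of the Dirichlet series with coefficients `a`,
which converges absolutely in a right half-plane. -/
def P1With (a : ℕ → ℂ) (F : ℂ → ℂ) : Prop :=
  ∃ σ₀ : ℝ, ∀ s : ℂ, σ₀ < s.re → LSeriesSummable a s ∧ F s = LSeries a s

/-- (P1): `F` is the sum of a Dirichlet series which converges absolutely in a right half-plane. -/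
def P1 (F : ℂ → ℂ) : Prop := ∃ a : ℕ → ℂ, P1With a F

/-- (P2): for some nonzero polynomial `P`, `P F` extends to an entire function `E`, and
`E(s) ≪ (1 + |t|)^M` on every vertical strip.  (Equality of meromorphic functions is equality off a
closed discrete set.) -/
def P2 (F : ℂ → ℂ) : Prop :=
  ∃ (P : Polynomial ℂ) (E : ℂ → ℂ), P ≠ 0 ∧ Differentiable ℂ E ∧
    E =ᶠ[codiscrete ℂ] (fun s => P.eval s * F s) ∧
    ∀ σ₁ σ₂ : ℝ, ∃ M C : ℝ, ∀ s : ℂ, σ₁ ≤ s.re → s.re ≤ σ₂ → ‖E s‖ ≤ C * (1 + |s.im|) ^ M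

/-- The functional equation with data `Q`, `ω` and gamma factor `G`: the function
`Φ(s) = Q^s G(s) F(s)` satisfies `Φ(s) = ω conj Φ(1 - conj s)` (off a closed discrete set). -/
def FE (F : ℂ → ℂ) (Q : ℝ) (G : ℂ → ℂ) (ω : ℂ) : Prop :=
  (fun s : ℂ => (Q : ℂ) ^ s * G s * F s) =ᶠ[codiscrete ℂ]
    (fun s : ℂ => ω * starRingEnd ℂ ((Q : ℂ) ^ (1 - starRingEnd ℂ s) *
      G (1 - starRingEnd ℂ s) * F (1 - starRingEnd ℂ s)))

/-- (P3) with some data for which `2 ∑ λ_j - 2 ∑ λ'_j = d`. -/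
def P3 (F : ℂ → ℂ) (d : ℝ) : Prop :=
  ∃ (Q : ℝ) (ω : ℂ) (r r' : ℕ) (lam : Fin r → ℝ) (mu : Fin r → ℂ) (lam' : Fin r' → ℝ)
    (mu' : Fin r' → ℂ), 0 < Q ∧ ‖ω‖ = 1 ∧ (∀ j, 0 < lam j) ∧ (∀ j, 0 < lam' j) ∧
    FE F Q (gammaFactor lam mu lam' mu') ω ∧ d = 2 * ∑ j, lam j - 2 * ∑ j, lam' j

/-- The members of `𝒜^#` of degree `d`: non-zero meromorphic functions on `ℂ` with (P1), (P2), (P3). -/
def ASharp (d : ℝ) : Set (ℂ → ℂ) :=
  {F | Meromorphic F ∧ ¬ F =ᶠ[codiscrete ℂ] 0 ∧ P1 F ∧ P2 F ∧ P3 F d}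

/-- The conclusions about `F` in the main result: entire, with coefficient sequence `a`, of polynomial
growth on vertical strips (`(P2)`), with the functional equation given by `Q`, the single gamma factor
`Γ(d s / 2 + ν)` and `ω`. -/
structure Nice (d Q ν : ℝ) (ω : ℂ) (a : ℕ → ℂ) (F : ℂ → ℂ) : Prop where
  entire : Differentiable ℂ F
  series : P1With a F
  growth : P2 F
  functional : FE F Q (fun s => Gamma (((d / 2 : ℝ) : ℂ) * s + (ν : ℂ))) ω

theorem poles_codiscrete (lam ν : ℝ) (hν : 0 < ν) :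
    ∀ᶠ s : ℂ in codiscrete ℂ, ∀ n : ℕ, (lam : ℂ) * s + ν ≠ -(n : ℂ) := by
  have hd : Differentiable ℂ (fun s : ℂ => (Gamma ((lam : ℂ) * s + ν))⁻¹) := by
    have h1 : Differentiable ℂ (fun s : ℂ => (lam : ℂ) * s + ν) := by fun_prop
    exact Complex.differentiable_one_div_Gamma.comp h1
  have han : AnalyticOnNhd ℂ (fun s : ℂ => (Gamma ((lam : ℂ) * s + ν))⁻¹) Set.univ :=
    fun z _ => hd.analyticAt z
  have h0 : (fun s : ℂ => (Gamma ((lam : ℂ) * s + ν))⁻¹) 0 ≠ 0 := by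
    simp only [mul_zero, zero_add]
    apply inv_ne_zero
    apply Complex.Gamma_ne_zero_of_re_pos
    simpa using hν
  have h := han.preimage_zero_mem_codiscrete h0
  filter_upwards [h] with s hs n hn
  apply hs
  simp only [Set.mem_singleton_iff]
  rw [hn, Complex.Gamma_neg_nat_eq_zero, inv_zero]

theorem poles_codiscrete' (lam ν : ℝ) (hν : 0 < ν) :
    ∀ᶠ s : ℂ in codiscrete ℂ, ∀ n : ℕ,
      (lam : ℂ) * (1 - starRingEnd ℂ s) + ν ≠ -(n : ℂ) := by
  have hd : Differentiable ℂ (fun s : ℂ => (Gamma ((lam : ℂ) * (1 - s) + ν))⁻¹) := by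
    have h1 : Differentiable ℂ (fun s : ℂ => (lam : ℂ) * (1 - s) + ν) := by fun_prop
    exact Complex.differentiable_one_div_Gamma.comp h1
  have han : AnalyticOnNhd ℂ (fun s : ℂ => (Gamma ((lam : ℂ) * (1 - s) + ν))⁻¹) Set.univ :=
    fun z _ => hd.analyticAt z
  have h0 : (fun s : ℂ => (Gamma ((lam : ℂ) * (1 - s) + ν))⁻¹) 1 ≠ 0 := by
    simp only [sub_self, mul_zero, zero_add]
    apply inv_ne_zero
    apply Complex.Gamma_ne_zero_of_re_pos
    simpa using hν
  have h := han.preimage_zero_mem_codiscrete h0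
  filter_upwards [h] with s hs n hn
  apply hs
  simp only [Set.mem_singleton_iff]
  have h2 : (lam : ℂ) * (1 - s) + ν = -(n : ℂ) := by
    have := congrArg (starRingEnd ℂ) hn
    simp only [map_add, map_mul, map_sub, map_one, Complex.conj_conj, Complex.conj_ofReal, map_neg,
      map_natCast] at this
    exact this
  rw [h2, Complex.Gamma_neg_nat_eq_zero, inv_zero]

/-- a `Nice` function with a nonzero coefficient is a member of `𝒜^#_d` -/
theorem Nice.mem {d Q ν : ℝ} {ω : ℂ} {a : ℕ → ℂ} {F : ℂ → ℂ} (hd : 0 < d) (hQ : 0 < Q) (hω : ‖ω‖ = 1)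
    (h : Nice d Q ν ω a F) {n₀ : ℕ} (hn : 1 ≤ n₀) (ha : a n₀ ≠ 0) : F ∈ ASharp d := by
  refine ⟨fun x => (h.entire.analyticAt x).meromorphicAt, ?_, ⟨a, h.series⟩, h.growth, ?_⟩
  · intro h0
    have h1 : F = 0 := by
      have hA : AnalyticOnNhd ℂ F Set.univ := fun z _ => h.entire.analyticAt z
      by_contra hne
      obtain ⟨x, hx⟩ := Function.ne_iff.1 hne
      have h2 := hA.preimage_zero_mem_codiscrete (x := x) hx
      have h3 : ∀ᶠ s : ℂ in codiscrete ℂ, False := by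
        filter_upwards [h0, h2] with s hs1 hs2
        exact hs2 hs1
      have h4 := (mem_codiscreteWithin_iff_forall_mem_nhdsNE.1 h3) 0 (Set.mem_univ _)
      have h5 : ({x : ℂ | False} ∪ Set.univᶜ : Set ℂ) = ∅ := by simp
      rw [h5] at h4
      exact (inferInstance : (nhdsWithin (0 : ℂ) {0}ᶜ).NeBot).ne (Filter.empty_mem_iff_bot.1 h4)
    obtain ⟨σ₀, hser⟩ := h.series
    have hab : LSeries.abscissaOfAbsConv a < ⊤ := by
      have h2 : LSeriesSummable a ((σ₀ + 1 : ℝ) : ℂ) := (hser _ (by simp)).1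
      exact lt_of_le_of_lt h2.abscissaOfAbsConv_le (EReal.coe_lt_top _)
    have h3 : (fun x : ℝ => LSeries a x) =ᶠ[atTop] fun _ => (0 : ℂ) := by
      filter_upwards [eventually_gt_atTop σ₀] with x hx
      rw [← (hser x (by simpa using hx)).2, h1]
      rfl
    rcases LSeries_eventually_eq_zero_iff'.1 h3 with h4 | h4
    · exact ha (h4 n₀ (by omega))
    · rw [h4] at hab
      exact lt_irrefl _ hab
  · refine ⟨Q, ω, 1, 0, fun _ => d / 2, fun _ => (ν : ℂ), fun j => j.elim0, fun j => j.elim0, hQ, hω, ?_,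
      fun j => j.elim0, ?_, ?_⟩
    · intro _
      linarith
    · have h1 := h.functional
      unfold FE at h1 ⊢
      simpa only [gammaFactor, Finset.univ_unique, Finset.prod_singleton, Finset.univ_eq_empty,
        Finset.prod_empty, mul_one] using h1
    · simp
      ring

/-- **Main result.**  For all real `d ≥ 2`, `K` and `ε > 0` there are `m₀` and `Q₀` such that for all
integers `m ≥ m₀` and all reals `Q ≥ Q₀` there is a set `S` of positive integers with at most `ε x^{2/d}`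
elements in `[1, x]`, for every `x ≥ 0`, with the following property: for EVERY complex number `ω` of
absolute value `1` and EVERY complex sequence `v(n) = O(n^K)` there is an entire function `F`, the sum of a
Dirichlet series with coefficients `a(n) = v(n)` for all `n ∉ S`, of polynomial growth on vertical strips, with the
functional equation given by `Q`, `Γ(d s / 2 + m + 1 - d / 4)` and `ω`; and `F ∈ 𝒜^#_d` if `v` does not vanish
identically off `S`. -/
theorem result :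
    ∀ d K ε : ℝ, 2 ≤ d → 0 < ε → ∃ (m₀ : ℕ) (Q₀ : ℝ), ∀ m : ℕ, m₀ ≤ m → ∀ Q : ℝ, Q₀ ≤ Q →
      0 < Q ∧ ∃ S : Set ℕ, 0 ∉ S ∧
        (∀ x : ℝ, 0 ≤ x → (({n | n ∈ S ∧ (n : ℝ) ≤ x} : Set ℕ).ncard : ℝ) ≤ ε * x ^ (2 / d)) ∧
        ∀ ω : ℂ, ‖ω‖ = 1 → ∀ (v : ℕ → ℂ) (C : ℝ), (∀ n : ℕ, 1 ≤ n → ‖v n‖ ≤ C * (n : ℝ) ^ K) →
          ∃ (a : ℕ → ℂ) (F : ℂ → ℂ), (∀ n : ℕ, 1 ≤ n → n ∉ S → a n = v n) ∧
            Nice d Q (m + 1 - d / 4) ω a F ∧
            ((∃ n : ℕ, 1 ≤ n ∧ n ∉ S ∧ v n ≠ 0) → F ∈ ASharp d) := by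
  intro d K ε hd hε
  obtain ⟨m₁, hm₁⟩ := Pool.Agent.Y532.SC.real_version
  obtain ⟨lam, hlam⟩ : ∃ lam : ℝ, lam = d / 2 := ⟨_, rfl⟩
  have hlam1 : 1 ≤ lam := by linarith
  have hl : 0 < lam := by linarith
  obtain ⟨m₂, hm₂⟩ := exists_nat_gt (max lam (lam * (K + 1 / 2) + 1))
  obtain ⟨c₀, hc₀d⟩ : ∃ c₀ : ℝ, c₀ = min (1 / 100) ε := ⟨_, rfl⟩
  have hc₀ : 0 < c₀ := by rw [hc₀d]; exact lt_min (by norm_num) hε
  refine ⟨max m₁ m₂, c₀ ^ (-lam), fun m hm Q hQ => ?_⟩
  have hQ0 : 0 < Q := lt_of_lt_of_le (Real.rpow_pos_of_pos hc₀ _) hQ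
  refine ⟨hQ0, ?_⟩
  obtain ⟨c, hcd⟩ : ∃ c : ℝ, c = Q ^ (-(1 / lam)) := ⟨_, rfl⟩
  have hc : 0 < c := by rw [hcd]; exact Real.rpow_pos_of_pos hQ0 _
  have hcc₀ : c ≤ c₀ := by
    rw [hcd]
    calc Q ^ (-(1 / lam)) ≤ (c₀ ^ (-lam)) ^ (-(1 / lam)) :=
          Real.rpow_le_rpow_of_nonpos (Real.rpow_pos_of_pos hc₀ _) hQ (by
            rw [neg_nonpos]; positivity)
      _ = c₀ := by
          rw [← Real.rpow_mul hc₀.le]
          have : -lam * -(1 / lam) = 1 := by field_simp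
          rw [this, Real.rpow_one]
  have hQc : Real.exp (-(lam * Real.log c)) = Q := by
    rw [hcd, Real.log_rpow hQ0]
    have : -(lam * (-(1 / lam) * Real.log Q)) = Real.log Q := by field_simp
    rw [this, Real.exp_log hQ0]
  have hc100 : c ≤ 1 / 100 := hcc₀.trans (by rw [hc₀d]; exact min_le_left _ _)
  have hcε : c ≤ ε := hcc₀.trans (by rw [hc₀d]; exact min_le_right _ _)
  have hmm₂ : (m₂ : ℝ) ≤ m := by exact_mod_cast (le_max_right m₁ m₂).trans hm
  have hmlam : lam ≤ m := ((le_max_left _ _).trans hm₂.le).trans hmm₂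
  have hmK : lam * (K + 1 / 2) + 1 < m := lt_of_lt_of_le (lt_of_le_of_lt (le_max_right _ _) hm₂) hmm₂
  have hν : (0 : ℝ) < m + 1 - d / 4 := by linarith
  have hmu : Pool.Agent.W168.Wrap.mu lam m = m + 1 - d / 4 := by
    unfold Pool.Agent.W168.Wrap.mu
    rw [hlam]; ring
  refine ⟨Pool.Agent.Y532.SC.nodes c lam, ?_, fun x hx => ?_, fun ω hω v C hv => ?_⟩
  · rintro ⟨h, -⟩
    omega
  · refine (Pool.Agent.Y532.SC.nodes_count hc hlam1 hx).trans ?_
    have e : 1 / lam = 2 / d := by rw [hlam]; field_simp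
    rw [e]
    have := Real.rpow_nonneg hx (2 / d)
    gcongr
  · -- a square root of `ω`
    obtain ⟨η, hη⟩ : ∃ η : ℂ, η ^ 2 = ω := IsAlgClosed.exists_pow_nat_eq ω (by norm_num)
    have hηn : ‖η‖ = 1 := by
      have h1 : ‖η‖ ^ 2 = 1 := by rw [← norm_pow, hη, hω]
      nlinarith [norm_nonneg η]
    have hηc : η * starRingEnd ℂ η = 1 := by
      rw [Complex.mul_conj, Complex.normSq_eq_norm_sq, hηn]
      norm_num
    have hη0 : η ≠ 0 := by
      intro h
      rw [h, norm_zero] at hηn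
      exact zero_ne_one hηn
    -- real and imaginary part of `conj η v`
    obtain ⟨w, hw⟩ : ∃ w : ℕ → ℂ, w = fun n => starRingEnd ℂ η * v n := ⟨_, rfl⟩
    have hwn : ∀ n, 1 ≤ n → ‖w n‖ ≤ C * (n : ℝ) ^ K := by
      intro n hn
      rw [hw]
      simp only
      rw [norm_mul, Complex.norm_conj, hηn, one_mul]
      exact hv n hn
    obtain ⟨p, Fp, hp1, hp2, hp3, hp4, hp5⟩ := hm₁ lam K hlam1 m ((le_max_left _ _).trans hm) hmlam hmK c hc hc100
      1 (Or.inl rfl) (fun n => (w n).re) C (fun n hn => (Complex.abs_re_le_norm _).trans (hwn n hn))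
    obtain ⟨q, Fq, hq1, hq2, hq3, hq4, hq5⟩ := hm₁ lam K hlam1 m ((le_max_left _ _).trans hm) hmlam hmK c hc hc100
      (-1) (Or.inr rfl) (fun n => (w n).im) C (fun n hn => (Complex.abs_im_le_norm _).trans (hwn n hn))
    rw [hQc] at hp5 hq5
    rw [hmu] at hp3 hq3
    have hmuc : (Pool.Agent.W168.Wrap.mu lam m : ℂ) = ((m + 1 - d / 4 : ℝ) : ℂ) := by rw [hmu]
    rw [hmuc] at hp5 hq5
    have hF : ∀ n, 1 ≤ n → n ∉ Pool.Agent.Y532.SC.nodes c lam →
        η * ((p n : ℂ) + (q n : ℂ) * I) = v n := by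
      intro n hn hnS
      rw [hp1 n hn hnS, hq1 n hn hnS, Complex.re_add_im, hw]
      simp only
      rw [← mul_assoc, hηc, one_mul]
    have hnice : Nice d Q (m + 1 - d / 4) ω (fun n => η * ((p n : ℂ) + (q n : ℂ) * I))
        (fun s => η * (Fp s + Fq s * I)) := by
      refine ⟨?_, ?_, ?_, ?_⟩
      · exact (differentiable_const _).mul (hp2.add (hq2.mul (differentiable_const _)))
      · refine ⟨(2 * m + 2 + |(m + 1 - d / 4 : ℝ)|) / lam, fun s hs => ?_⟩
        obtain ⟨a1, a2⟩ := hp3 s hs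
        obtain ⟨b1, b2⟩ := hq3 s hs
        have e : (fun n => η * ((p n : ℂ) + (q n : ℂ) * I)) =
            η • ((fun n => (p n : ℂ)) + I • (fun n => (q n : ℂ))) := by
          funext n
          simp only [Pi.smul_apply, Pi.add_apply, smul_eq_mul]
          ring
        rw [e]
        refine ⟨LSeriesSummable.smul η (a1.add (b1.smul I)), ?_⟩
        rw [LSeries_smul, LSeries_add a1 (b1.smul I), LSeries_smul, ← a2, ← b2]
        ring
      · refine ⟨1, fun s => η * (Fp s + Fq s * I), one_ne_zero,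
          (differentiable_const _).mul (hp2.add (hq2.mul (differentiable_const _))), by simp, ?_⟩
        intro σ₁ σ₂
        obtain ⟨M1, C1, h1⟩ := hp4 σ₁ σ₂
        obtain ⟨M2, C2, h2⟩ := hq4 σ₁ σ₂
        refine ⟨max M1 M2, |C1| + |C2|, fun s hs1 hs2 => ?_⟩
        have h3 : (1 : ℝ) ≤ 1 + |s.im| := by linarith [abs_nonneg s.im]
        rw [norm_mul, hηn, one_mul]
        refine (norm_add_le _ _).trans ?_
        rw [norm_mul, Complex.norm_I, mul_one, add_mul]
        apply add_le_add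
        · refine (h1 s hs1 hs2).trans ?_
          calc C1 * (1 + |s.im|) ^ M1 ≤ |C1| * (1 + |s.im|) ^ M1 := by
                gcongr
                exact le_abs_self _
            _ ≤ |C1| * (1 + |s.im|) ^ (max M1 M2) := by
                gcongr
                exact le_max_left _ _
        · refine (h2 s hs1 hs2).trans ?_
          calc C2 * (1 + |s.im|) ^ M2 ≤ |C2| * (1 + |s.im|) ^ M2 := by
                gcongr
                exact le_abs_self _
            _ ≤ |C2| * (1 + |s.im|) ^ (max M1 M2) := by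
                gcongr
                exact le_max_right _ _
      · unfold FE
        filter_upwards [poles_codiscrete lam _ hν, poles_codiscrete' lam _ hν] with s h1 h2
        have f1 := hp5 s h1 h2
        have f2 := hq5 s h1 h2
        rw [← hlam]
        simp only [map_mul, map_add, Complex.conj_I, Complex.ofReal_one, Complex.ofReal_neg, one_mul] at f1 f2 ⊢
        rw [← hη]
        linear_combination η * f1 + η * I * f2 - η * (starRingEnd ℂ ((Q : ℂ) ^ (1 - starRingEnd ℂ s)) *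
          starRingEnd ℂ (Gamma ((lam : ℂ) * (1 - starRingEnd ℂ s) + ((m + 1 - d / 4 : ℝ) : ℂ))) *
          (starRingEnd ℂ (Fp (1 - starRingEnd ℂ s)) - starRingEnd ℂ (Fq (1 - starRingEnd ℂ s)) * I)) * hηc
    refine ⟨_, _, hF, hnice, ?_⟩
    rintro ⟨n, hn, hnS, hvn⟩
    refine hnice.mem (by linarith) hQ0 hω hn ?_
    have := hF n hn hnS
    rw [this]
    exact hvn

/-- Corollary (not part of `result`): for every real `d ≥ 2`, every `N` and all complex numbers
`v(1), …, v(N)`, not all zero, there is an entire `F ∈ 𝒜^#_d` whose first `N` coefficients are these. -/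
theorem first_coefficients (d : ℝ) (hd : 2 ≤ d) (N : ℕ) (v : ℕ → ℂ) (hv : ∃ n : ℕ, 1 ≤ n ∧ n ≤ N ∧ v n ≠ 0) :
      ∃ (a : ℕ → ℂ) (F : ℂ → ℂ), Differentiable ℂ F ∧ F ∈ ASharp d ∧ P1With a F ∧
        ∀ n : ℕ, 1 ≤ n → n ≤ N → a n = v n := by
  obtain ⟨n₀, hn₀, hn₀N, hvn₀⟩ := hv
  have hN : 1 ≤ N := hn₀.trans hn₀N
  have hNr : (1 : ℝ) ≤ N := by exact_mod_cast hN
  have hNp : 0 < (N : ℝ) ^ (2 / d) := Real.rpow_pos_of_pos (by linarith) _
  obtain ⟨ε, hεd⟩ : ∃ ε : ℝ, ε = 1 / (2 * (N : ℝ) ^ (2 / d)) := ⟨_, rfl⟩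
  have hε : 0 < ε := by rw [hεd]; positivity
  obtain ⟨m₀, Q₀, h⟩ := result d 0 ε hd hε
  obtain ⟨hQ, S, hS0, hS, hmain⟩ := h m₀ le_rfl Q₀ le_rfl
  have hSN : ∀ n : ℕ, n ≤ N → n ∉ S := by
    intro n hn hnS
    have h1 := hS N (by linarith)
    rw [hεd] at h1
    have h2 : 1 / (2 * (N : ℝ) ^ (2 / d)) * (N : ℝ) ^ (2 / d) = 1 / 2 := by field_simp
    rw [h2] at h1
    have hfin : ({n | n ∈ S ∧ (n : ℝ) ≤ N} : Set ℕ).Finite := by
      refine (Finset.finite_toSet (Finset.range (N + 1))).subset ?_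
      rintro k ⟨-, hk⟩
      have : k ≤ N := by exact_mod_cast hk
      simp
      omega
    have h3 : 1 ≤ ({n | n ∈ S ∧ (n : ℝ) ≤ N} : Set ℕ).ncard := by
      rw [Nat.one_le_iff_ne_zero, Ne, Set.ncard_eq_zero hfin]
      exact Set.Nonempty.ne_empty ⟨n, hnS, by exact_mod_cast hn⟩
    have h4 : (1 : ℝ) ≤ (({n | n ∈ S ∧ (n : ℝ) ≤ N} : Set ℕ).ncard : ℝ) := by exact_mod_cast h3
    linarith
  obtain ⟨a, F, ha, hnice, hmem⟩ := hmain 1 (by simp) (fun n => if n ≤ N then v n else 0)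
    (∑ n ∈ Finset.range (N + 1), ‖v n‖) (fun n hn => by
      rw [Real.rpow_zero, mul_one]
      split_ifs with h
      · exact Finset.single_le_sum (f := fun n => ‖v n‖) (fun _ _ => norm_nonneg _)
          (Finset.mem_range.2 (by omega))
      · rw [norm_zero]
        exact Finset.sum_nonneg fun _ _ => norm_nonneg _)
  refine ⟨a, F, hnice.entire, hmem ⟨n₀, hn₀, hSN n₀ hn₀N, by rw [if_pos hn₀N]; exact hvn₀⟩, hnice.series, ?_⟩
  intro n hn hnN
  rw [ha n hn (hSN n hnN), if_pos hnN]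

end Pool.Agent.Results.MP_bac04d_nt.PrescribedCoefficients
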